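import Pool.Agent.J4H20.TR.Stm

/-!
Project TR2 of helper20 (MP_176ace_nt): (EMB); the proof of `W290/CG/Emb.lean`.
-/

set_option autoImplicit false

namespace Pool.Agent.J4H57.TR

open Polynomial NumberField nonZeroDivisors Pool.Agent.J4H20.TR

theorem t_EMB : S_EMB := by
  intro K _ _ θ F n q hq x hn hFn hfin hgen hθ h1 h2
  -- Hensel
  have ha1 : aeval (x : ℤ_[q]) F = ((F.eval x : ℤ) : ℤ_[q]) := by
    rw [show (x : ℤ_[q]) = algebraMap ℤ ℤ_[q] x by simp, aeval_algebraMap_apply]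
    simp
  have ha2 : aeval (x : ℤ_[q]) F.derivative = ((F.derivative.eval x : ℤ) : ℤ_[q]) := by
    rw [show (x : ℤ_[q]) = algebraMap ℤ ℤ_[q] x by simp, aeval_algebraMap_apply]
    simp
  have hn1 : ‖aeval (x : ℤ_[q]) F‖ < 1 := by
    rw [ha1]; exact (PadicInt.norm_int_lt_one_iff_dvd _).mpr h1
  have hn2 : ‖aeval (x : ℤ_[q]) F.derivative‖ = 1 := by
    rw [ha2]
    refine le_antisymm (PadicInt.norm_le_one _) ?_
    by_contra hcon
    exact h2 ((PadicInt.norm_int_lt_one_iff_dvd _).mp (not_le.mp hcon))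
  obtain ⟨z, hz, hzx, -, -⟩ := hensels_lemma (p := q) (F := F) (a := (x : ℤ_[q]))
    (by rw [hn2]; simpa using hn1)
  -- the minimal polynomial
  have hint : IsIntegral ℚ θ := Algebra.IsIntegral.isIntegral θ
  have hFθ : aeval θ (F.map (algebraMap ℤ ℚ)) = 0 := by
    rw [aeval_map_algebraMap]
    exact hθ
  have hdvd := minpoly.dvd ℚ θ hFθ
  have hdeg1 : (F.map (algebraMap ℤ ℚ)).natDegree = n := by
    rw [natDegree_map_eq_of_injective (RingHom.injective_int _), hFn]
  have hdeg2 : (minpoly ℚ θ).natDegree = n := by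
    rw [← IntermediateField.adjoin.finrank hint, hgen, IntermediateField.finrank_top', hfin]
  have hF0 : F.map (algebraMap ℤ ℚ) ≠ 0 := by
    intro h
    rw [h, natDegree_zero] at hdeg1
    omega
  obtain ⟨w, hw⟩ := hdvd
  have hw0 : w ≠ 0 := by
    rintro rfl
    rw [mul_zero] at hw
    exact hF0 hw
  have hwd : w.natDegree = 0 := by
    have h3 := congrArg natDegree hw
    rw [natDegree_mul (minpoly.ne_zero hint) hw0, hdeg1, hdeg2] at h3
    omega
  have hwC : w = C (w.coeff 0) := eq_C_of_natDegree_eq_zero hwd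
  have hw00 : w.coeff 0 ≠ 0 := by
    intro h
    rw [h, C_0] at hwC
    exact hw0 hwC
  have hzF : aeval (z : ℚ_[q]) (F.map (algebraMap ℤ ℚ)) = 0 := by
    rw [aeval_map_algebraMap]
    have h3 : aeval (algebraMap ℤ_[q] ℚ_[q] z) F = algebraMap ℤ_[q] ℚ_[q] (aeval z F) :=
      aeval_algebraMap_apply ℚ_[q] z F
    rw [hz, map_zero] at h3
    exact h3
  have hzm : aeval (z : ℚ_[q]) (minpoly ℚ θ) = 0 := by
    rw [hw, map_mul, hwC, aeval_C] at hzF
    rcases mul_eq_zero.mp hzF with h | h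
    · exact h
    · exact absurd ((map_eq_zero _).mp h) hw00
  -- the embedding
  let pb : PowerBasis ℚ K := (IntermediateField.adjoin.powerBasis hint).map
    ((IntermediateField.equivOfEq hgen).trans IntermediateField.topEquiv)
  have hpb : pb.gen = θ := by
    simp only [pb, PowerBasis.map_gen, IntermediateField.adjoin.powerBasis_gen]
    rfl
  refine ⟨(pb.lift (z : ℚ_[q]) (by rw [hpb]; exact hzm)).toRingHom, z, ?_, ?_⟩
  · have := pb.lift_gen (z : ℚ_[q]) (by rw [hpb]; exact hzm)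
    exact (congrArg (fun y => (pb.lift (z : ℚ_[q]) (by rw [hpb]; exact hzm)) y) hpb.symm).trans
      this
  · have h4 : ‖z - (x : ℤ_[q])‖ < 1 := by
      rw [hn2] at hzx; exact hzx
    have h5 : z - (x : ℤ_[q]) ∈ RingHom.ker (PadicInt.toZMod (p := q)) := by
      rw [PadicInt.ker_toZMod, IsLocalRing.mem_maximalIdeal]
      exact PadicInt.mem_nonunits.mpr h4
    have h6 := (RingHom.mem_ker).mp h5
    rw [map_sub, sub_eq_zero] at h6
    rw [h6]
    exact map_intCast _ x

end Pool.Agent.J4H57.TR
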